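import Pool.Agent.H551.GP.Main

/-!
Graphs with general position number at most three have mutual-visibility number at most sixteen.
-/

namespace Pool.Agent.Results.MP_86da66_co.MuAtMostSixteen

open Pool.Agent.H551.GP

/-- If `G` is a finite connected graph with `gp G ≤ 3`, then `mu G ≤ 16`. -/
theorem result {V : Type*} [Fintype V] (G : SimpleGraph V) (hG : G.Connected) (h : gp G ≤ 3) :
    mu G ≤ 16 :=
  mu_le fun _ hS => card_le (ms_of hG h hS) certs

end Pool.Agent.Results.MP_86da66_co.MuAtMostSixteen
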